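import Pool.Agent.Lib.MP_7b6e24_nt.Res

open Polynomial Finset
open scoped Nat

namespace Pool.Agent.Lib.MP_7b6e24

/-- the triples `m₁ < m₂ < m₃ < p`, `m₃ - m₁ ≤ D`, with equal factorials mod `p` -/
def Tri (p D : ℕ) : Finset (ℕ × ℕ × ℕ) :=
  ((range p) ×ˢ ((range p) ×ˢ (range p))).filter fun t =>
    t.1 < t.2.1 ∧ t.2.1 < t.2.2 ∧ t.2.2 ≤ t.1 + D ∧ t.1 ! % p = t.2.1 ! % p ∧
      t.2.1 ! % p = t.2.2 ! % p

def Rt (p d1 d2 : ℕ) : Finset ℕ :=
  (range p).filter fun n => n + d1 + d2 < p ∧ n ! % p = (n + d1)! % p ∧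
    (n + d1)! % p = (n + d1 + d2)! % p

lemma fact_prod (n d : ℕ) : ((n + d)! : ℤ) = (n ! : ℤ) * ∏ i ∈ range d, ((n : ℤ) + ((i + 1 : ℕ) : ℤ)) := by
  induction d with
  | zero => simp
  | succ d ih =>
    rw [Finset.prod_range_succ, ← mul_assoc, ← ih, ← add_assoc, Nat.factorial_succ]
    push_cast
    ring

lemma root_aux (p n d : ℕ) (hp : p.Prime) (h : n + d < p) (he : n ! % p = (n + d)! % p) :
    (p : ℤ) ∣ (∏ i ∈ range d, ((n : ℤ) + ((i + 1 : ℕ) : ℤ))) - 1 := by
  have h1 : (p : ℤ) ∣ ((n + d)! : ℤ) - (n ! : ℤ) := by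
    have h2 : n ! ≡ (n + d)! [MOD p] := he
    exact (Nat.modEq_iff_dvd).1 h2
  rw [fact_prod n d, show (n ! : ℤ) * (∏ i ∈ range d, ((n : ℤ) + ((i + 1 : ℕ) : ℤ))) - (n ! : ℤ) =
    (n ! : ℤ) * ((∏ i ∈ range d, ((n : ℤ) + ((i + 1 : ℕ) : ℤ))) - 1) by ring] at h1
  rcases (Nat.prime_iff_prime_int.1 hp).dvd_or_dvd h1 with h3 | h3
  · exfalso
    have h4 : p ∣ n ! := by exact_mod_cast h3
    rw [hp.dvd_factorial] at h4
    omega
  · exact h3

lemma root_of_mem {p n d1 d2 : ℕ} (hp : p.Prime) (h : n ∈ Rt p d1 d2) :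
    (p : ℤ) ∣ (F 0 d1).eval (n : ℤ) ∧ (p : ℤ) ∣ (F d1 d2).eval (n : ℤ) := by
  unfold Rt at h
  rw [Finset.mem_filter] at h
  obtain ⟨_, h1, h2, h3⟩ := h
  constructor
  · rw [F_eval]
    have := root_aux p n d1 hp (by omega) h2
    simpa using this
  · rw [F_eval]
    have := root_aux p (n + d1) d2 hp (by omega) h3
    have e : (∏ i ∈ range d2, (((n + d1 : ℕ) : ℤ) + ((i + 1 : ℕ) : ℤ))) =
        ∏ i ∈ range d2, ((n : ℤ) + ((d1 + i + 1 : ℕ) : ℤ)) := by
      apply Finset.prod_congr rfl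
      intro i _
      push_cast
      ring
    rw [e] at this
    exact this

def Ps (y : ℕ) : Finset ℕ := (Finset.Ioc y (2 * y + 1)).filter Nat.Prime

lemma mem_Ps {y p : ℕ} : p ∈ Ps y ↔ (y < p ∧ p ≤ 2 * y + 1) ∧ p.Prime := by
  unfold Ps
  rw [Finset.mem_filter, Finset.mem_Ioc]

lemma sum_Rt (y d1 d2 : ℕ) (hy : 2 ≤ y) (h1 : 1 ≤ d1) (h2 : 1 ≤ d2) :
    ∑ p ∈ Ps y, (Rt p d1 d2).card ≤ 4 * (d1 * d2) := by
  classical
  by_cases hne : ∃ p ∈ Ps y, (Rt p d1 d2).Nonempty
  · obtain ⟨p0, hp0, n0, hn0⟩ := hne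
    have hd : d1 + d2 ≤ 2 * y := by
      have h3 := (mem_Ps.1 hp0).1.2
      unfold Rt at hn0
      rw [Finset.mem_filter] at hn0
      omega
    have hdvd : (∏ p ∈ Ps y, (p : ℤ) ^ (Rt p d1 d2).card) ∣ resultant (F 0 d1) (F d1 d2) := by
      apply Finset.prod_dvd_of_coprime
      · intro p hp q hq hpq
        apply IsCoprime.pow
        rw [Nat.isCoprime_iff_coprime]
        exact (Nat.coprime_primes (mem_Ps.1 hp).2 (mem_Ps.1 hq).2).2 hpq
      · intro p hp
        have hpp := (mem_Ps.1 hp).2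
        rcases (Rt p d1 d2).eq_empty_or_nonempty with he | hne'
        · rw [he, Finset.card_empty, pow_zero]
          exact one_dvd _
        · obtain ⟨n1, hn1⟩ := hne'
          have hlt : d1 + d2 ≤ p := by
            unfold Rt at hn1
            rw [Finset.mem_filter] at hn1
            omega
          have e0 : resultant (F 0 d1) (F d1 d2) = resultant (F 0 d1) (F d1 d2) d1 d2 := by
            rw [F_natDegree, F_natDegree]
          have hsub : Rt p d1 d2 ⊆ range p := Finset.filter_subset _ _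
          rw [e0]
          apply pow_dvd_res p hpp _ _ d1 d2 (F_natDegree 0 d1).le (F_natDegree d1 d2).le hlt _ hsub
          · have := roots_card p hpp (F 0 d1) (F_monic 0 d1 h1) (Rt p d1 d2) hsub
              (fun r hr => (root_of_mem hpp hr).1)
            rw [F_natDegree] at this
            omega
          · intro r hr
            exact root_of_mem hpp hr
    have hle : (∏ p ∈ Ps y, (p : ℤ) ^ (Rt p d1 d2).card) ≤ |resultant (F 0 d1) (F d1 d2)| :=
      Int.le_of_dvd (abs_pos.2 (res_ne d1 d2 h1 h2)) ((dvd_abs _ _).2 hdvd)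
    have hlow : (y : ℤ) ^ (∑ p ∈ Ps y, (Rt p d1 d2).card) ≤ ∏ p ∈ Ps y, (p : ℤ) ^ (Rt p d1 d2).card := by
      rw [← Finset.prod_pow_eq_pow_sum]
      apply Finset.prod_le_prod (fun _ _ => by positivity)
      intro p hp
      apply pow_le_pow_left₀ (by positivity)
      exact_mod_cast (mem_Ps.1 hp).1.1.le
    have hup : (2 * (d1 + d2) + 2 : ℤ) ^ (d1 * d2) ≤ (y : ℤ) ^ (4 * (d1 * d2)) := by
      rw [pow_mul (y : ℤ) 4 (d1 * d2)]
      apply pow_le_pow_left₀ (by positivity)
      have h5 : (2 * ((d1 : ℤ) + d2) + 2) ≤ 4 * y + 2 := by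
        have : ((d1 : ℤ) + d2) ≤ 2 * y := by exact_mod_cast hd
        linarith
      refine h5.trans ?_
      have hy' : (2 : ℤ) ≤ y := by exact_mod_cast hy
      have h6 : (8 : ℤ) ≤ (y : ℤ) ^ 3 := by
        calc (8 : ℤ) = 2 ^ 3 := by norm_num
          _ ≤ _ := pow_le_pow_left₀ (by norm_num) hy' 3
      have h7 : (y : ℤ) ^ 4 = y * y ^ 3 := by ring
      rw [h7]
      nlinarith
    have hfin : (y : ℤ) ^ (∑ p ∈ Ps y, (Rt p d1 d2).card) ≤ (y : ℤ) ^ (4 * (d1 * d2)) :=
      hlow.trans (hle.trans ((res_bound d1 d2 h1 h2).trans hup))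
    have hfin' : y ^ (∑ p ∈ Ps y, (Rt p d1 d2).card) ≤ y ^ (4 * (d1 * d2)) := by exact_mod_cast hfin
    exact (Nat.pow_le_pow_iff_right (by omega)).1 hfin'
  · push Not at hne
    rw [Finset.sum_eq_zero]
    · exact Nat.zero_le _
    · intro p hp
      rw [hne p hp, Finset.card_empty]

lemma tri_le (p D : ℕ) :
    (Tri p D).card ≤ ∑ d1 ∈ Finset.Icc 1 D, ∑ d2 ∈ Finset.Icc 1 D, (Rt p d1 d2).card := by
  classical
  rw [← Finset.sum_product' (Finset.Icc 1 D) (Finset.Icc 1 D) (fun d1 d2 => (Rt p d1 d2).card)]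
  rw [← Finset.card_sigma (Finset.Icc 1 D ×ˢ Finset.Icc 1 D) (fun x => Rt p x.1 x.2)]
  apply Finset.card_le_card_of_injOn
    (fun t : ℕ × ℕ × ℕ => (⟨(t.2.1 - t.1, t.2.2 - t.2.1), t.1⟩ : (_ : ℕ × ℕ) × ℕ))
  · intro t ht
    rw [Finset.mem_coe] at ht ⊢
    unfold Tri at ht
    rw [Finset.mem_filter, Finset.mem_product, Finset.mem_product, Finset.mem_range,
      Finset.mem_range, Finset.mem_range] at ht
    obtain ⟨⟨h1, h2, h3⟩, h4, h5, h6, h7, h8⟩ := ht
    rw [Finset.mem_sigma, Finset.mem_product, Finset.mem_Icc, Finset.mem_Icc]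
    refine ⟨⟨⟨?_, ?_⟩, ⟨?_, ?_⟩⟩, ?_⟩
    · show 1 ≤ t.2.1 - t.1
      omega
    · show t.2.1 - t.1 ≤ D
      omega
    · show 1 ≤ t.2.2 - t.2.1
      omega
    · show t.2.2 - t.2.1 ≤ D
      omega
    · show t.1 ∈ Rt p (t.2.1 - t.1) (t.2.2 - t.2.1)
      unfold Rt
      rw [Finset.mem_filter, Finset.mem_range]
      have e1 : t.1 + (t.2.1 - t.1) = t.2.1 := by omega
      have e2 : t.1 + (t.2.1 - t.1) + (t.2.2 - t.2.1) = t.2.2 := by omega
      rw [e2, e1]
      exact ⟨h1, h3, h7, h8⟩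
  · intro t ht s hs hts
    rw [Finset.mem_coe] at ht hs
    unfold Tri at ht hs
    rw [Finset.mem_filter] at ht hs
    simp only [Sigma.mk.injEq, Prod.mk.injEq, heq_eq_eq] at hts
    obtain ⟨⟨ha, hb⟩, hc⟩ := hts
    have h1 := ht.2.1
    have h2 := ht.2.2.1
    have h3 := hs.2.1
    have h4 := hs.2.2.1
    ext
    · exact hc
    · omega
    · omega

lemma sum_tri (y D : ℕ) (hy : 2 ≤ y) : ∑ p ∈ Ps y, (Tri p D).card ≤ 4 * D ^ 4 := by
  calc ∑ p ∈ Ps y, (Tri p D).card
      ≤ ∑ p ∈ Ps y, ∑ d1 ∈ Finset.Icc 1 D, ∑ d2 ∈ Finset.Icc 1 D, (Rt p d1 d2).card :=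
        Finset.sum_le_sum fun p _ => tri_le p D
    _ = ∑ d1 ∈ Finset.Icc 1 D, ∑ d2 ∈ Finset.Icc 1 D, ∑ p ∈ Ps y, (Rt p d1 d2).card := by
        rw [Finset.sum_comm]
        apply Finset.sum_congr rfl
        intro d1 _
        rw [Finset.sum_comm]
    _ ≤ ∑ d1 ∈ Finset.Icc 1 D, ∑ d2 ∈ Finset.Icc 1 D, 4 * (D * D) := by
        apply Finset.sum_le_sum
        intro d1 h1
        apply Finset.sum_le_sum
        intro d2 h2
        rw [Finset.mem_Icc] at h1 h2
        refine (sum_Rt y d1 d2 hy h1.1 h2.1).trans ?_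
        exact Nat.mul_le_mul_left _ (Nat.mul_le_mul h1.2 h2.2)
    _ = 4 * D ^ 4 := by
        simp only [Finset.sum_const, Nat.card_Icc, smul_eq_mul, Nat.add_sub_cancel]
        ring

lemma block_aux (p D k : ℕ) (A : Finset ℕ) (hA : A ⊆ range p) (a : ℕ)
    (ha : ∀ n ∈ A, n ! % p = a) :
    (A.filter fun n => n / (D + 1) = k).card ≤
      ((Tri p D).filter fun t => t.1 / (D + 1) = k).card + 2 := by
  classical
  set B := A.filter fun n => n / (D + 1) = k with hB
  by_cases hB0 : B.Nonempty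
  · set u := B.min' hB0 with hu
    by_cases hB1 : (B.erase u).Nonempty
    · set v := (B.erase u).min' hB1 with hv
      have huB : u ∈ B := Finset.min'_mem _ _
      have hvB : v ∈ B.erase u := Finset.min'_mem _ _
      have hvB' : v ∈ B := Finset.mem_of_mem_erase hvB
      have hc : ((B.erase u).erase v).card + 2 = B.card := by
        rw [Finset.card_erase_of_mem hvB, Finset.card_erase_of_mem huB]
        have h1 : 0 < (B.erase u).card := Finset.card_pos.2 hB1
        rw [Finset.card_erase_of_mem huB] at h1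
        omega
      rw [← hc]
      apply Nat.add_le_add_right
      apply Finset.card_le_card_of_injOn (fun m => (u, v, m))
      · intro m hm
        rw [Finset.mem_coe] at hm ⊢
        have hm1 : m ∈ B.erase u := Finset.mem_of_mem_erase hm
        have hm2 : m ∈ B := Finset.mem_of_mem_erase hm1
        have hmv : m ≠ v := Finset.ne_of_mem_erase hm
        have hlt1 : u < v := lt_of_le_of_ne (Finset.min'_le _ _ hvB') (Finset.ne_of_mem_erase hvB).symm
        have hlt2 : v < m := lt_of_le_of_ne (Finset.min'_le _ _ hm1) hmv.symm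
        have hBA : ∀ z ∈ B, z ∈ A ∧ z / (D + 1) = k := fun z hz => Finset.mem_filter.1 hz
        have hr : ∀ z ∈ B, z < p := fun z hz => Finset.mem_range.1 (hA (hBA z hz).1)
        have hmu : m ≤ u + D := by
          have e1 := (hBA m hm2).2
          have e2 := (hBA u huB).2
          have f1 := Nat.div_add_mod m (D + 1)
          have f2 := Nat.div_add_mod u (D + 1)
          have f3 := Nat.mod_lt m (Nat.succ_pos D)
          rw [e1] at f1
          rw [e2] at f2
          have f4 : m % (D + 1) ≤ D := Nat.lt_succ_iff.1 f3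
          omega
        unfold Tri
        rw [Finset.mem_filter, Finset.mem_filter, Finset.mem_product, Finset.mem_product,
          Finset.mem_range, Finset.mem_range, Finset.mem_range]
        refine ⟨⟨⟨hr u huB, hr v hvB', hr m hm2⟩, hlt1, hlt2, hmu, ?_, ?_⟩, (hBA u huB).2⟩
        · show u ! % p = v ! % p
          rw [ha u (hBA u huB).1, ha v (hBA v hvB').1]
        · show v ! % p = m ! % p
          rw [ha m (hBA m hm2).1, ha v (hBA v hvB').1]
      · intro m _ m' _ hmm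
        simp only [Prod.mk.injEq, true_and] at hmm
        exact hmm
    · rw [Finset.not_nonempty_iff_eq_empty] at hB1
      have h1 : (B.erase u).card = 0 := by rw [hB1, Finset.card_empty]
      rw [Finset.card_erase_of_mem (Finset.min'_mem _ _)] at h1
      omega
  · rw [Finset.not_nonempty_iff_eq_empty] at hB0
    rw [hB0, Finset.card_empty]
    exact Nat.zero_le _

lemma tri_ge (p D : ℕ) (A : Finset ℕ) (hA : A ⊆ range p) (a : ℕ)
    (ha : ∀ n ∈ A, n ! % p = a) :
    A.card ≤ (Tri p D).card + 2 * ((p - 1) / (D + 1) + 1) := by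
  classical
  set K := (p - 1) / (D + 1) + 1 with hK
  have hmap : ∀ n ∈ A, n / (D + 1) ∈ range K := by
    intro n hn
    rw [Finset.mem_range, hK, Nat.lt_succ_iff]
    apply Nat.div_le_div_right
    have := Finset.mem_range.1 (hA hn)
    omega
  have hmap2 : ∀ t ∈ Tri p D, t.1 / (D + 1) ∈ range K := by
    intro t ht
    rw [Finset.mem_range, hK, Nat.lt_succ_iff]
    apply Nat.div_le_div_right
    unfold Tri at ht
    rw [Finset.mem_filter, Finset.mem_product, Finset.mem_range] at ht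
    omega
  rw [Finset.card_eq_sum_card_fiberwise hmap, Finset.card_eq_sum_card_fiberwise hmap2]
  calc ∑ k ∈ range K, (A.filter fun n => n / (D + 1) = k).card
      ≤ ∑ k ∈ range K, (((Tri p D).filter fun t => t.1 / (D + 1) = k).card + 2) :=
        Finset.sum_le_sum fun k _ => block_aux p D k A hA a ha
    _ = _ := by
        rw [Finset.sum_add_distrib, Finset.sum_const, card_range, smul_eq_mul]
        ring

end Pool.Agent.Lib.MP_7b6e24
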