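import Pool.Agent.Lib.MP_7b6e24_nt.Count

open Finset
open scoped Nat

namespace Pool.Agent.Lib.MP_7b6e24

/-- some residue class mod `p` contains `n!` for at least `G` values `n < p` -/
def Bad (G p : ℕ) : Prop := ∃ a ∈ range p, G ≤ ((range p).filter fun n => n ! % p = a).card

instance (G : ℕ) : DecidablePred (Bad G) := fun p => by unfold Bad; infer_instance

lemma base (y G : ℕ) (hy : 2 ≤ y) : ((Ps y).filter (Bad G)).card * G ^ 5 ≤ 2 ^ 19 * y ^ 4 := by
  classical
  by_cases hG : 8 ≤ G
  · set D := 16 * y / G with hD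
    have hDG : D * G ≤ 16 * y := Nat.div_mul_le_self _ _
    have hD1 : 16 * y < (D + 1) * G := by
      have h0 : 16 * y < G * (16 * y / G + 1) := Nat.lt_mul_div_succ _ (by omega)
      rw [← hD] at h0
      rw [mul_comm (D + 1) G]
      exact h0
    have key : ∀ p ∈ (Ps y).filter (Bad G), G ≤ 2 * (Tri p D).card := by
      intro p hp
      rw [Finset.mem_filter] at hp
      obtain ⟨hpP, a, _, hG'⟩ := hp
      have h1 := tri_ge p D ((range p).filter fun n => n ! % p = a) (Finset.filter_subset _ _) a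
        (fun n hn => (Finset.mem_filter.1 hn).2)
      have h2 := (mem_Ps.1 hpP).1.2
      set q := (p - 1) / (D + 1) with hq
      have h3 : q * (D + 1) ≤ p - 1 := Nat.div_mul_le_self _ _
      have h4 : 8 * q ≤ G := by
        by_contra hcon
        push Not at hcon
        have h5 : 8 * q * (D + 1) ≤ 16 * y := by
          have : 8 * (q * (D + 1)) ≤ 8 * (p - 1) := Nat.mul_le_mul_left _ h3
          nlinarith [this, h2, Nat.sub_le p 1, show 8 * (p - 1) ≤ 16 * y by omega]
        have h6 : (D + 1) * G ≤ 8 * q * (D + 1) := by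
          rw [mul_comm (8 * q)]
          exact Nat.mul_le_mul_left _ hcon.le
        omega
      omega
    have hsum : ((Ps y).filter (Bad G)).card * G ≤ 8 * D ^ 4 := by
      calc ((Ps y).filter (Bad G)).card * G = ∑ _p ∈ (Ps y).filter (Bad G), G := by
            rw [Finset.sum_const, smul_eq_mul]
        _ ≤ ∑ p ∈ (Ps y).filter (Bad G), 2 * (Tri p D).card := Finset.sum_le_sum key
        _ ≤ ∑ p ∈ Ps y, 2 * (Tri p D).card :=
            Finset.sum_le_sum_of_subset (Finset.filter_subset _ _)
        _ = 2 * ∑ p ∈ Ps y, (Tri p D).card := by rw [Finset.mul_sum]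
        _ ≤ 2 * (4 * D ^ 4) := Nat.mul_le_mul_left _ (sum_tri y D hy)
        _ = _ := by ring
    calc ((Ps y).filter (Bad G)).card * G ^ 5 = (((Ps y).filter (Bad G)).card * G) * G ^ 4 := by ring
      _ ≤ (8 * D ^ 4) * G ^ 4 := Nat.mul_le_mul_right _ hsum
      _ = 8 * (D * G) ^ 4 := by ring
      _ ≤ 8 * (16 * y) ^ 4 := Nat.mul_le_mul_left _ (Nat.pow_le_pow_left hDG 4)
      _ = 2 ^ 19 * y ^ 4 := by ring
  · have h1 : ((Ps y).filter (Bad G)).card ≤ y + 1 := by
      refine (Finset.card_filter_le _ _).trans ((Finset.card_filter_le _ _).trans ?_)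
      rw [Nat.card_Ioc]
      omega
    have h2 : G ^ 5 ≤ 7 ^ 5 := Nat.pow_le_pow_left (by omega) 5
    have h3 : y + 1 ≤ 2 * y ^ 4 := by
      have : y ≤ y ^ 4 := Nat.le_self_pow (by norm_num) y
      omega
    calc ((Ps y).filter (Bad G)).card * G ^ 5 ≤ (2 * y ^ 4) * 7 ^ 5 :=
          Nat.mul_le_mul (h1.trans h3) h2
      _ ≤ 2 ^ 19 * y ^ 4 := by
        have : 0 ≤ y ^ 4 := Nat.zero_le _
        nlinarith

lemma bad_le {G p : ℕ} (h : Bad G p) : G ≤ p := by
  obtain ⟨a, _, h⟩ := h
  refine h.trans ((Finset.card_filter_le _ _).trans ?_)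
  rw [card_range]

lemma main (G : ℕ) : ∀ x : ℕ,
    ((Finset.range (x + 1)).filter fun p => p.Prime ∧ Bad G p).card * G ^ 5 ≤ 2 ^ 19 * x ^ 4 := by
  classical
  intro x
  induction x using Nat.strong_induction_on with
  | _ x ih =>
    by_cases hx : 4 ≤ x
    · set y := x / 2 with hy
      have h1 := ih y (by omega)
      have h2 := base y G (by omega)
      have hsub : ((Finset.range (x + 1)).filter fun p => p.Prime ∧ Bad G p) ⊆
          ((Finset.range (y + 1)).filter fun p => p.Prime ∧ Bad G p) ∪ (Ps y).filter (Bad G) := by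
        intro p hp
        rw [Finset.mem_filter, Finset.mem_range] at hp
        rw [Finset.mem_union, Finset.mem_filter, Finset.mem_range, Finset.mem_filter, mem_Ps]
        obtain ⟨hp1, hp2, hp3⟩ := hp
        by_cases hpy : p ≤ y
        · left
          exact ⟨by omega, hp2, hp3⟩
        · right
          exact ⟨⟨⟨by omega, by omega⟩, hp2⟩, hp3⟩
      have h3 := (Finset.card_le_card hsub).trans (Finset.card_union_le _ _)
      have h4 : 16 * y ^ 4 ≤ x ^ 4 := by
        calc 16 * y ^ 4 = (2 * y) ^ 4 := by ring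
          _ ≤ x ^ 4 := Nat.pow_le_pow_left (by omega) 4
      calc _ ≤ (((Finset.range (y + 1)).filter fun p => p.Prime ∧ Bad G p).card +
            ((Ps y).filter (Bad G)).card) * G ^ 5 := Nat.mul_le_mul_right _ h3
        _ = ((Finset.range (y + 1)).filter fun p => p.Prime ∧ Bad G p).card * G ^ 5 +
            ((Ps y).filter (Bad G)).card * G ^ 5 := by ring
        _ ≤ 2 ^ 19 * y ^ 4 + 2 ^ 19 * y ^ 4 := Nat.add_le_add h1 h2
        _ ≤ 2 ^ 19 * x ^ 4 := by
          have h5 : y ^ 4 + y ^ 4 ≤ x ^ 4 := by omega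
          calc 2 ^ 19 * y ^ 4 + 2 ^ 19 * y ^ 4 = 2 ^ 19 * (y ^ 4 + y ^ 4) := by ring
            _ ≤ _ := Nat.mul_le_mul_left _ h5
    · rcases Finset.eq_empty_or_nonempty
        ((Finset.range (x + 1)).filter fun p => p.Prime ∧ Bad G p) with he | hne
      · rw [he, Finset.card_empty, zero_mul]
        exact Nat.zero_le _
      · obtain ⟨p, hp⟩ := hne
        rw [Finset.mem_filter, Finset.mem_range] at hp
        have hGx : G ≤ x := (bad_le hp.2.2).trans (by omega)
        have hx2 : 2 ≤ x := hp.2.1.two_le.trans (by omega)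
        have h1 : ((Finset.range (x + 1)).filter fun p => p.Prime ∧ Bad G p).card ≤ x + 1 := by
          refine (Finset.card_filter_le _ _).trans ?_
          rw [card_range]
        calc _ ≤ (x + 1) * x ^ 5 := Nat.mul_le_mul h1 (Nat.pow_le_pow_left hGx 5)
          _ ≤ 4 * (3 * x ^ 4) := by
            apply Nat.mul_le_mul (by omega)
            rw [pow_succ, mul_comm]
            exact Nat.mul_le_mul_right _ (by omega)
          _ ≤ 2 ^ 19 * x ^ 4 := by
            have : 0 ≤ x ^ 4 := Nat.zero_le _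
            nlinarith

end Pool.Agent.Lib.MP_7b6e24
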