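import Mathlib

open Polynomial Finset

namespace Pool.Agent.Lib.MP_7b6e24

/-- `(X + a + 1) ... (X + a + d) - 1`. -/
noncomputable def F (a d : ℕ) : ℤ[X] := (∏ i ∈ range d, (X + C ((a + i + 1 : ℕ) : ℤ))) - 1

noncomputable def P (a d : ℕ) : ℤ[X] := ∏ i ∈ range d, (X + C ((a + i + 1 : ℕ) : ℤ))

lemma F_eq (a d : ℕ) : F a d = P a d - 1 := rfl

lemma P_monic (a d : ℕ) : (P a d).Monic :=
  monic_prod_of_monic _ _ fun _ _ => monic_X_add_C _

lemma P_natDegree (a d : ℕ) : (P a d).natDegree = d := by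
  unfold P
  rw [natDegree_prod_of_monic _ _ fun i _ => monic_X_add_C _]
  simp only [natDegree_X_add_C, sum_const, card_range, smul_eq_mul, mul_one]

lemma P_eval (a d : ℕ) (z : ℤ) : (P a d).eval z = ∏ i ∈ range d, (z + ((a + i + 1 : ℕ) : ℤ)) := by
  unfold P
  simp only [eval_prod, eval_add, eval_X, eval_C]

lemma F_eval (a d : ℕ) (z : ℤ) :
    (F a d).eval z = (∏ i ∈ range d, (z + ((a + i + 1 : ℕ) : ℤ))) - 1 := by
  rw [F_eq, eval_sub, eval_one, P_eval]

lemma F_monic (a d : ℕ) (hd : 1 ≤ d) : (F a d).Monic := by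
  rw [F_eq]
  apply (P_monic a d).sub_of_left
  rw [degree_one, degree_eq_natDegree (P_monic a d).ne_zero, P_natDegree]
  exact_mod_cast hd

lemma F_natDegree (a d : ℕ) : (F a d).natDegree = d := by
  rw [F_eq, show (1 : ℤ[X]) = C 1 from C_1.symm, natDegree_sub_C, P_natDegree]

/-- Westlund: `(X+a_1)...(X+a_d) - 1` is irreducible. -/
lemma F_irr (a d : ℕ) (hd : 1 ≤ d) : Irreducible (F a d) := by
  have hm := F_monic a d hd
  have hne : F a d ≠ 1 := by
    intro h
    have := F_natDegree a d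
    rw [h, natDegree_one] at this
    omega
  rw [hm.irreducible_iff_natDegree']
  refine ⟨hne, ?_⟩
  intro f g hf hg hfg hmem
  rw [F_natDegree] at hmem
  rw [Finset.mem_Ioc] at hmem
  have hdeg : f.natDegree + g.natDegree = d := by
    rw [← hf.natDegree_mul hg, hfg, F_natDegree]
  have key : f + g = 0 := by
    apply eq_zero_of_natDegree_lt_card_of_eval_eq_zero' (f + g)
      ((range d).image fun i => -((a + i + 1 : ℕ) : ℤ))
    · intro z hz
      rw [Finset.mem_image] at hz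
      obtain ⟨i, hi, rfl⟩ := hz
      have h1 : f.eval (-((a + i + 1 : ℕ) : ℤ)) * g.eval (-((a + i + 1 : ℕ) : ℤ)) = -1 := by
        rw [← eval_mul, hfg, F_eval, Finset.prod_eq_zero hi (by ring)]
        ring
      rw [eval_add]
      rcases Int.eq_one_or_neg_one_of_mul_eq_neg_one h1 with h | h
      · rw [h] at h1 ⊢
        linarith
      · rw [h] at h1 ⊢
        linarith
    · rw [Finset.card_image_of_injective _ (fun i j h => by simpa using h), card_range]
      refine lt_of_le_of_lt (natDegree_add_le _ _) ?_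
      rw [max_lt_iff]
      omega
  have h2 : f = -g := by
    rw [eq_neg_iff_add_eq_zero]
    exact key
  have h3 : f.leadingCoeff = -g.leadingCoeff := by rw [h2, leadingCoeff_neg]
  rw [hf.leadingCoeff, hg.leadingCoeff] at h3
  norm_num at h3

lemma F_coprime (d1 d2 : ℕ) (h1 : 1 ≤ d1) (h2 : 1 ≤ d2) :
    IsCoprime ((F 0 d1).map (algebraMap ℤ ℚ)) ((F d1 d2).map (algebraMap ℤ ℚ)) := by
  have i1 : Irreducible ((F 0 d1).map (algebraMap ℤ ℚ)) :=
    ((F_monic 0 d1 h1).irreducible_iff_irreducible_map_fraction_map).1 (F_irr 0 d1 h1)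
  have i2 : Irreducible ((F d1 d2).map (algebraMap ℤ ℚ)) :=
    ((F_monic d1 d2 h2).irreducible_iff_irreducible_map_fraction_map).1 (F_irr d1 d2 h2)
  rw [i1.coprime_iff_not_dvd]
  intro hdvd
  have hass := i1.associated_of_dvd i2 hdvd
  have heq : (F 0 d1).map (algebraMap ℤ ℚ) = (F d1 d2).map (algebraMap ℤ ℚ) :=
    eq_of_monic_of_associated ((F_monic 0 d1 h1).map _) ((F_monic d1 d2 h2).map _) hass
  have heq' : F 0 d1 = F d1 d2 := map_injective _ (algebraMap ℤ ℚ).injective_int heq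
  have e1 : (F 0 d1).eval (-1) = -1 := by
    rw [F_eval, Finset.prod_eq_zero (i := 0) (by rw [Finset.mem_range]; omega) (by norm_num)]
    norm_num
  rw [heq', F_eval] at e1
  have hprod : (∏ i ∈ range d2, ((-1 : ℤ) + ((d1 + i + 1 : ℕ) : ℤ))) = 0 := by linarith
  rw [Finset.prod_eq_zero_iff] at hprod
  obtain ⟨i, _, hi⟩ := hprod
  push_cast at hi
  omega

lemma res_ne (d1 d2 : ℕ) (h1 : 1 ≤ d1) (h2 : 1 ≤ d2) :
    resultant (F 0 d1) (F d1 d2) ≠ 0 := by
  intro h
  have := resultant_ne_zero _ _ (F_coprime d1 d2 h1 h2)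
  apply this
  rw [natDegree_map_eq_of_injective (algebraMap ℤ ℚ).injective_int,
    natDegree_map_eq_of_injective (algebraMap ℤ ℚ).injective_int, resultant_map_map, h, map_zero]

end Pool.Agent.Lib.MP_7b6e24
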