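import Pool.Agent.Lib.MP_7b6e24_nt.Poly

open Polynomial Finset

namespace Pool.Agent.Lib.MP_7b6e24

/-- rows divisible by `q` -/
lemma pow_dvd_det {n : ℕ} (q : ℤ) (M : Matrix (Fin n) (Fin n) ℤ) (S : Finset (Fin n))
    (h : ∀ i ∈ S, ∀ j, q ∣ M i j) : q ^ S.card ∣ M.det := by
  classical
  rw [← Matrix.det_transpose, Matrix.det_apply']
  apply Finset.dvd_sum
  intro σ _
  apply Dvd.dvd.mul_left
  rw [← Finset.prod_const]
  refine dvd_trans (Finset.prod_dvd_prod_of_dvd (fun _ => q) (fun i => M i (σ i)) ?_)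
    (Finset.prod_dvd_prod_of_subset S univ _ (Finset.subset_univ S))
  intro i hi
  exact h i hi (σ i)

lemma sum_aux (g : ℤ[X]) (m n j : ℕ) (hj : j < m) (hg : g.natDegree ≤ n) (z : ℤ) :
    ∑ i ∈ range (m + n), z ^ i * (if i ∈ Set.Icc j (j + n) then g.coeff (i - j) else 0) =
      z ^ j * g.eval z := by
  rw [eval_eq_sum_range' (Nat.lt_succ_of_le hg), Finset.mul_sum]
  have h1 : ∑ i ∈ range (m + n), z ^ i * (if i ∈ Set.Icc j (j + n) then g.coeff (i - j) else 0) =
      ∑ i ∈ Finset.Ico j (j + (n + 1)), z ^ i * g.coeff (i - j) := by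
    symm
    refine Eq.trans (Finset.sum_congr rfl (g := fun i => z ^ i *
      (if i ∈ Set.Icc j (j + n) then g.coeff (i - j) else 0)) ?_) (Finset.sum_subset ?_ ?_)
    · intro i hi
      rw [Finset.mem_Ico] at hi
      rw [if_pos (Set.mem_Icc.2 ⟨hi.1, by omega⟩)]
    · intro i hi
      rw [Finset.mem_Ico] at hi
      rw [Finset.mem_range]
      omega
    · intro i _ hi
      rw [Finset.mem_Ico] at hi
      rw [if_neg, mul_zero]
      intro hc
      rw [Set.mem_Icc] at hc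
      omega
  rw [h1, Finset.sum_Ico_eq_sum_range]
  rw [show j + (n + 1) - j = n + 1 by omega]
  apply Finset.sum_congr rfl
  intro i _
  rw [show j + i - j = i by omega, pow_add]
  ring

lemma sum_aux' (f : ℤ[X]) (m n j : ℕ) (hj : j < n) (hf : f.natDegree ≤ m) (z : ℤ) :
    ∑ i ∈ range (m + n), z ^ i * (if i ∈ Set.Icc j (j + m) then f.coeff (i - j) else 0) =
      z ^ j * f.eval z := by
  rw [add_comm m n]
  exact sum_aux f n m j hj hf z

lemma vand_mul (f g : ℤ[X]) (m n : ℕ) (hf : f.natDegree ≤ m) (hg : g.natDegree ≤ n)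
    (v : Fin (m + n) → ℤ) (k j : Fin (m + n)) (p : ℤ) (h1 : p ∣ f.eval (v k))
    (h2 : p ∣ g.eval (v k)) : p ∣ (Matrix.vandermonde v * sylvester f g m n) k j := by
  rw [Matrix.mul_apply]
  simp only [Matrix.vandermonde_apply, sylvester, Matrix.of_apply]
  induction j using Fin.addCases with
  | left j1 =>
    simp only [Fin.addCases_left]
    have := sum_aux g m n j1 j1.2 hg (v k)
    rw [← Fin.sum_univ_eq_sum_range
      (fun i => v k ^ i * (if i ∈ Set.Icc (j1 : ℕ) (j1 + n) then g.coeff (i - j1) else 0))] at this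
    rw [this]
    exact h2.mul_left _
  | right j1 =>
    simp only [Fin.addCases_right]
    have := sum_aux' f m n j1 j1.2 hf (v k)
    rw [← Fin.sum_univ_eq_sum_range
      (fun i => v k ^ i * (if i ∈ Set.Icc (j1 : ℕ) (j1 + m) then f.coeff (i - j1) else 0))] at this
    rw [this]
    exact h1.mul_left _

lemma pow_dvd_res (p : ℕ) (hp : p.Prime) (f g : ℤ[X]) (m n : ℕ) (hf : f.natDegree ≤ m)
    (hg : g.natDegree ≤ n) (hmn : m + n ≤ p) (R : Finset ℕ) (hR : R ⊆ range p)
    (hcard : R.card ≤ m + n) (h : ∀ r ∈ R, (p : ℤ) ∣ f.eval (r : ℤ) ∧ (p : ℤ) ∣ g.eval (r : ℤ)) :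
    (p : ℤ) ^ R.card ∣ resultant f g m n := by
  classical
  obtain ⟨T, hRT, hT, hTc⟩ := Finset.exists_subsuperset_card_eq hR hcard (by rw [card_range]; exact hmn)
  set v : Fin (m + n) ↪o ℕ := T.orderEmbOfFin hTc with hv
  have hmem : ∀ i, v i ∈ T := fun i => Finset.orderEmbOfFin_mem T hTc i
  set S : Finset (Fin (m + n)) := univ.filter fun i => v i ∈ R with hS
  have hSc : S.card = R.card := by
    apply Finset.card_bij (fun i _ => v i)
    · intro i hi
      exact (Finset.mem_filter.1 hi).2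
    · intro i _ j _ hij
      exact v.injective hij
    · intro r hr
      have : r ∈ Set.range v := by
        rw [hv, Finset.range_orderEmbOfFin]
        exact hRT hr
      obtain ⟨i, hi⟩ := this
      exact ⟨i, Finset.mem_filter.2 ⟨Finset.mem_univ _, by rw [hi]; exact hr⟩, hi⟩
  have hdvd := pow_dvd_det (p : ℤ) (Matrix.vandermonde (fun i => (v i : ℤ)) * sylvester f g m n) S
    (by
      intro k hk j
      have hk' := (Finset.mem_filter.1 hk).2
      exact vand_mul f g m n hf hg _ k j p (h _ hk').1 (h _ hk').2)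
  rw [hSc, Matrix.det_mul] at hdvd
  have hpz : Prime (p : ℤ) := Nat.prime_iff_prime_int.1 hp
  apply hpz.pow_dvd_of_dvd_mul_left _ _ hdvd
  rw [Matrix.det_vandermonde]
  intro hd
  rw [hpz.dvd_finsetProd_iff] at hd
  obtain ⟨i, _, hd⟩ := hd
  rw [hpz.dvd_finsetProd_iff] at hd
  obtain ⟨j, hj, hd⟩ := hd
  rw [Finset.mem_Ioi] at hj
  have hlt : v i < v j := v.strictMono hj
  have hlt2 : v j < p := Finset.mem_range.1 (hT (hmem j))
  have := Int.le_of_dvd (by exact_mod_cast (by omega : (0 : ℤ) < (v j : ℤ) - (v i : ℤ))) hd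
  omega

lemma roots_card (p : ℕ) (hp : p.Prime) (f : ℤ[X]) (hf : f.Monic) (R : Finset ℕ)
    (hR : R ⊆ range p) (h : ∀ r ∈ R, (p : ℤ) ∣ f.eval (r : ℤ)) : R.card ≤ f.natDegree := by
  classical
  have : Fact p.Prime := ⟨hp⟩
  set fp := f.map (Int.castRingHom (ZMod p)) with hfp
  have hfp0 : fp ≠ 0 := (hf.map _).ne_zero
  have h1 : R.card = (R.image fun r : ℕ => (r : ZMod p)).card := by
    rw [Finset.card_image_of_injOn]
    intro a ha b hb hab
    have ha' := Finset.mem_range.1 (hR ha)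
    have hb' := Finset.mem_range.1 (hR hb)
    have := congrArg ZMod.val hab
    simp only at this
    rwa [ZMod.val_cast_of_lt ha', ZMod.val_cast_of_lt hb'] at this
  have h2 : (R.image fun r : ℕ => (r : ZMod p)) ⊆ fp.roots.toFinset := by
    intro z hz
    rw [Finset.mem_image] at hz
    obtain ⟨r, hr, rfl⟩ := hz
    rw [Multiset.mem_toFinset, mem_roots hfp0, IsRoot.def]
    have h3 := h r hr
    rw [← ZMod.intCast_zmod_eq_zero_iff_dvd] at h3
    have h4 : fp.eval (((r : ℤ) : ZMod p)) = ((f.eval (r : ℤ) : ℤ) : ZMod p) := by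
      rw [hfp]
      exact eval_intCast_map (Int.castRingHom (ZMod p)) f r
    rw [h3, Int.cast_natCast] at h4
    exact h4
  calc R.card = _ := h1
    _ ≤ fp.roots.toFinset.card := Finset.card_le_card h2
    _ ≤ Multiset.card fp.roots := Multiset.toFinset_card_le _
    _ ≤ fp.natDegree := card_roots' _
    _ ≤ f.natDegree := natDegree_map_le

lemma res_bound (d1 d2 : ℕ) (h1 : 1 ≤ d1) (h2 : 1 ≤ d2) :
    |resultant (F 0 d1) (F d1 d2)| ≤ (2 * (d1 + d2) + 2 : ℤ) ^ (d1 * d2) := by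
  set f := (F 0 d1).map (algebraMap ℤ ℂ) with hf
  set g := (F d1 d2).map (algebraMap ℤ ℂ) with hg
  have hinj : Function.Injective (algebraMap ℤ ℂ) := (algebraMap ℤ ℂ).injective_int
  have hfm : f.Monic := (F_monic 0 d1 h1).map _
  have hdf : f.natDegree = d1 := by rw [hf, natDegree_map_eq_of_injective hinj, F_natDegree]
  have hdg : g.natDegree = d2 := by rw [hg, natDegree_map_eq_of_injective hinj, F_natDegree]
  have hres := resultant_eq_prod_eval f g g.natDegree le_rfl (IsAlgClosed.splits f)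
  rw [hfm.leadingCoeff, one_pow, one_mul, hdf, hdg] at hres
  rw [hf, hg, resultant_map_map, ← hf, ← hg] at hres
  have hB : ∀ α ∈ f.roots, ‖g.eval α‖ ≤ (2 * (d1 + d2) + 2 : ℝ) ^ d2 := by
    intro α hα
    have hα0 : f.eval α = 0 := (mem_roots hfm.ne_zero).1 hα
    have e1 : ∀ a d : ℕ, ((F a d).map (algebraMap ℤ ℂ)).eval α =
        (∏ i ∈ range d, (α + ((a + i + 1 : ℕ) : ℂ))) - 1 := by
      intro a d
      simp [F, Polynomial.map_prod, eval_prod, Polynomial.map_sub]
    have hαn : ‖α‖ ≤ d1 + 1 := by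
      by_contra hcon
      push Not at hcon
      rw [hf, e1] at hα0
      have h3 : ∏ i ∈ range d1, (α + ((0 + i + 1 : ℕ) : ℂ)) = 1 := by
        linear_combination hα0
      have h4 : ∏ i ∈ range d1, ‖α + ((0 + i + 1 : ℕ) : ℂ)‖ = 1 := by
        rw [← norm_prod, h3, norm_one]
      have h5 : (1 : ℝ) < ∏ i ∈ range d1, ‖α + ((0 + i + 1 : ℕ) : ℂ)‖ := by
        have h6 : ∀ i ∈ range d1, (1 : ℝ) < ‖α + ((0 + i + 1 : ℕ) : ℂ)‖ := by
          intro i hi
          rw [Finset.mem_range] at hi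
          have h7 : ‖α‖ - ‖((0 + i + 1 : ℕ) : ℂ)‖ ≤ ‖α + ((0 + i + 1 : ℕ) : ℂ)‖ := by
            have := norm_sub_le (α + ((0 + i + 1 : ℕ) : ℂ)) ((0 + i + 1 : ℕ) : ℂ)
            rw [add_sub_cancel_right] at this
            linarith
          rw [Complex.norm_natCast] at h7
          have h8 : ((0 + i + 1 : ℕ) : ℝ) ≤ d1 := by exact_mod_cast (by omega : 0 + i + 1 ≤ d1)
          linarith
        calc (1 : ℝ) = ∏ i ∈ range d1, (1 : ℝ) := by simp
          _ < _ := Finset.prod_lt_prod_of_nonempty (fun _ _ => one_pos) h6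
            ⟨0, Finset.mem_range.2 (by omega)⟩
      linarith
    rw [hg, e1]
    have h3 : ‖∏ i ∈ range d2, (α + ((d1 + i + 1 : ℕ) : ℂ))‖ ≤ (2 * (d1 + d2) + 1 : ℝ) ^ d2 := by
      rw [norm_prod]
      calc ∏ i ∈ range d2, ‖α + ((d1 + i + 1 : ℕ) : ℂ)‖ ≤ ∏ _i ∈ range d2, (2 * (d1 + d2) + 1 : ℝ) := by
            apply Finset.prod_le_prod (fun _ _ => norm_nonneg _)
            intro i hi
            rw [Finset.mem_range] at hi
            have h7 := norm_add_le α ((d1 + i + 1 : ℕ) : ℂ)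
            rw [Complex.norm_natCast] at h7
            have h8 : ((d1 + i + 1 : ℕ) : ℝ) ≤ d1 + d2 := by exact_mod_cast (by omega : d1 + i + 1 ≤ d1 + d2)
            have h9 : (0 : ℝ) ≤ d2 := Nat.cast_nonneg _
            linarith
        _ = _ := by simp
    have h4 : (2 * (d1 + d2) + 1 : ℝ) ^ d2 + 1 ≤ (2 * (d1 + d2) + 2 : ℝ) ^ d2 := by
      have : ((2 * (d1 + d2) + 1) ^ d2 + 1 : ℕ) ≤ (2 * (d1 + d2) + 2) ^ d2 := by
        apply Nat.succ_le_of_lt
        exact Nat.pow_lt_pow_left (by omega) (by omega)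
      exact_mod_cast this
    calc ‖(∏ i ∈ range d2, (α + ((d1 + i + 1 : ℕ) : ℂ))) - 1‖
        ≤ ‖∏ i ∈ range d2, (α + ((d1 + i + 1 : ℕ) : ℂ))‖ + ‖(1 : ℂ)‖ := norm_sub_le _ _
      _ ≤ (2 * (d1 + d2) + 1 : ℝ) ^ d2 + 1 := by rw [norm_one]; linarith
      _ ≤ _ := h4
  have hprod : ∀ s : Multiset ℂ, (∀ α ∈ s, ‖g.eval α‖ ≤ (2 * (d1 + d2) + 2 : ℝ) ^ d2) →
      ‖(s.map g.eval).prod‖ ≤ ((2 * (d1 + d2) + 2 : ℝ) ^ d2) ^ (Multiset.card s) := by
    intro s
    induction s using Multiset.induction_on with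
    | empty => intro _; simp
    | cons a s ih =>
      intro hs
      rw [Multiset.map_cons, Multiset.prod_cons, norm_mul, Multiset.card_cons, pow_succ, mul_comm]
      apply mul_le_mul (ih fun α hα => hs α (Multiset.mem_cons_of_mem hα))
        (hs a (Multiset.mem_cons_self a s)) (norm_nonneg _) (by positivity)
  have hfin := hprod f.roots hB
  rw [← hres] at hfin
  have hcard : Multiset.card f.roots ≤ d1 := by
    rw [← hdf]
    exact card_roots' f
  have h5 : ‖(algebraMap ℤ ℂ) (resultant (F 0 d1) (F d1 d2))‖ ≤ (2 * (d1 + d2) + 2 : ℝ) ^ (d1 * d2) := by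
    have e0 : resultant (F 0 d1) (F d1 d2) = resultant (F 0 d1) (F d1 d2) d1 d2 := by
      rw [F_natDegree, F_natDegree]
    rw [e0]
    refine hfin.trans ?_
    rw [← pow_mul]
    apply pow_le_pow_right₀
    · have : (0 : ℝ) ≤ d1 + d2 := by positivity
      linarith
    · rw [mul_comm d1 d2]
      exact Nat.mul_le_mul_left _ hcard
  rw [show (algebraMap ℤ ℂ) (resultant (F 0 d1) (F d1 d2)) =
    ((resultant (F 0 d1) (F d1 d2) : ℤ) : ℂ) by simp, Complex.norm_intCast] at h5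
  exact_mod_cast h5

end Pool.Agent.Lib.MP_7b6e24
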